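import Mathlib
import Pool.Agent.Work.MP_499dc6_lc.TD.FinalA

/-!
# Depth three circuits and products of determinants computing the permanent

Let `perm_N` be a sum of `S` rational functions, each of which is algebraic over the field
generated by `p` products, where each product has `D` factors, and each factor is a power of a
polynomial in `r` affine forms or of the determinant of a `v × v` matrix of affine forms. Then
`(log S + p log (2 + N / p)) (log D + r + 2 v) ≥ N / (2 * 10 ^ 6)`. There is no restriction on
degrees, and approximative (border) computation is allowed. Depth three circuits are the case in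
which the rational functions are the products, `p = r = 1`, `v = 0`, with affine forms as
polynomials: `(log S + log (N + 2)) (log D + 1) ≥ N / (2 * 10 ^ 6)`.
-/

namespace Pool.Agent.Results.MP_499dc6_lc.DepthThree

open MvPolynomial

open scoped PowerSeries

/-- Let `k` be a field of characteristic zero and let `perm_N + ε R`, `R` over `k[[ε]]`, be
`∑ i < S, T_i`, where the rational function `T_i` over `k((ε))` is algebraic over the algebra
generated by `P_i1, ..., P_ip`, `P_ib = ∏ j < D, f_ibj ^ μ_ibj`, where each `f_ibj` is a
polynomial in `r` affine forms or the determinant of a `v × v` matrix of affine forms.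
Then `(log S + p log (2 + N / p)) (log D + r + 2 v) ≥ N / (2 * 10 ^ 6)`. -/
theorem result (k : Type) [Field k] [CharZero k] (N S p D r v : ℕ) (hp : 1 ≤ p) (hD : 1 ≤ D)
    (hr : 1 ≤ r)
    (f : Fin S → Fin p → Fin D → MvPolynomial (Fin N × Fin N) (LaurentSeries k))
    (hf : ∀ i b j,
      (∃ (l : Fin r → MvPolynomial (Fin N × Fin N) (LaurentSeries k))
        (G : MvPolynomial (Fin r) (LaurentSeries k)),
        (∀ a, (l a).totalDegree ≤ 1) ∧ f i b j = aeval l G) ∨
      ∃ A : Matrix (Fin v) (Fin v) (MvPolynomial (Fin N × Fin N) (LaurentSeries k)),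
        (∀ a c, (A a c).totalDegree ≤ 1) ∧ f i b j = A.det)
    (μ : Fin S → Fin p → Fin D → ℕ)
    (T : Fin S → FractionRing (MvPolynomial (Fin N × Fin N) (LaurentSeries k)))
    (hT : ∀ i, IsAlgebraic (Algebra.adjoin (LaurentSeries k) (Set.range fun b =>
      algebraMap (MvPolynomial (Fin N × Fin N) (LaurentSeries k))
        (FractionRing (MvPolynomial (Fin N × Fin N) (LaurentSeries k)))
        (∏ j, f i b j ^ μ i b j))) (T i))
    (R : MvPolynomial (Fin N × Fin N) k⟦X⟧)
    (h : ∑ i, T i = algebraMap (MvPolynomial (Fin N × Fin N) (LaurentSeries k))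
      (FractionRing (MvPolynomial (Fin N × Fin N) (LaurentSeries k)))
      (MvPolynomial.map (algebraMap k⟦X⟧ (LaurentSeries k))
        ((Matrix.of fun i j => MvPolynomial.X (i, j)).permanent +
          MvPolynomial.C PowerSeries.X * R))) :
    (N : ℝ) / (2 * 10 ^ 6) ≤
      (Real.log S + p * Real.log (2 + N / p)) * (Real.log D + r + 2 * v) :=
  Work.MP_499dc6_lc.TD.tradeoff_alg k N S p D r v f μ hf T hT R h hp hD hr

end Pool.Agent.Results.MP_499dc6_lc.DepthThree
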