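import Mathlib
import Pool.Agent.Work.MP_499dc6_lc.Fib.RcD

/-!
# Circuits of bounded depth computing the permanent: Fibonacci exponents

Over every field of characteristic zero, the gates of a circuit of depth `D ≥ 2` with unbounded
fan-in and no restriction on the degrees that computes the `N × N` permanent, exactly or in the
border sense, satisfy `s * N ^ (r + 1) ≥ exp (N ^ (1 / (fib (D + 1) - 1)) / 11000 - e)`. The
exponents are `1, 1/2, 1/4, 1/7, 1/12, ...` for depth `2, 3, 4, 5, 6, ...`. The gates may be
arbitrary polynomials in `r` sums or products of powers of earlier gates, and all polynomials of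
single rows and of single columns of the matrix of variables are free.
-/

namespace Pool.Agent.Results.MP_499dc6_lc.FibonacciDepth

open MvPolynomial

open scoped PowerSeries

/-- `U` is a sum of polynomials, each in the variables of a single row or of a single column of the
matrix of variables. -/
def IsRowColSum {K : Type} [Field K] {N : ℕ} (U : MvPolynomial (Fin N × Fin N) K) : Prop :=
  ∃ f g : Fin N → MvPolynomial (Fin N) K,
    U = (∑ a, rename (fun b => (a, b)) (f a)) + ∑ b, rename (fun a => (a, b)) (g b)

/-- `U` is a product of polynomials, each in the variables of a single row or of a single column of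
the matrix of variables. -/
def IsRowColProd {K : Type} [Field K] {N : ℕ} (U : MvPolynomial (Fin N × Fin N) K) : Prop :=
  ∃ f g : Fin N → MvPolynomial (Fin N) K,
    U = (∏ a, rename (fun b => (a, b)) (f a)) * ∏ b, rename (fun a => (a, b)) (g b)

/-- `B` is a sum: a polynomial of degree at most `e` (zero at level zero) plus polynomials of single
rows and columns plus a linear combination of any number of earlier gates of level lower than that
of gate `i`; or it is a product of polynomials of single rows and columns and of powers of any number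
of such gates. -/
def IsSumOrProduct {K : Type} [Field K] {N s : ℕ} (e : ℕ)
    (F : Fin s → MvPolynomial (Fin N × Fin N) K) (d : Fin s → ℕ) (i : Fin s)
    (B : MvPolynomial (Fin N × Fin N) K) : Prop :=
  (∃ (l U : MvPolynomial (Fin N × Fin N) K) (c : Fin s → K), l.totalDegree ≤ e ∧
    (d i = 0 → l = 0) ∧ IsRowColSum U ∧ (∀ j, c j ≠ 0 → j < i ∧ d j < d i) ∧
    B = l + U + ∑ j, C (c j) * F j) ∨
  ∃ (U : MvPolynomial (Fin N × Fin N) K) (k : Fin s → ℕ), IsRowColProd U ∧
    (∀ j, k j ≠ 0 → j < i ∧ d j < d i) ∧ B = U * ∏ j, F j ^ k j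

/-- `F 0, ..., F (s - 1)` are the polynomials computed by the `s` gates (in this order) of a circuit
of depth `D` with parameters `e` and `r`, whose top gate is a sum. The numbers `d i` are the levels
of the gates, `0 ≤ d i ≤ D - 2`. Every gate is a product of polynomials of single rows and columns
times an arbitrary polynomial `Q` in `r` polynomials each of which is a sum or a product in the sense
of `IsSumOrProduct`. -/
def IsCircuit {K : Type} [Field K] {N s : ℕ} (D e r : ℕ)
    (F : Fin s → MvPolynomial (Fin N × Fin N) K) : Prop :=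
  ∃ d : Fin s → ℕ, (∀ i, d i + 2 ≤ D) ∧ ∀ i,
    ∃ (U : MvPolynomial (Fin N × Fin N) K) (B : Fin r → MvPolynomial (Fin N × Fin N) K)
      (Q : MvPolynomial (Fin r) K), IsRowColProd U ∧ (∀ a, IsSumOrProduct e F d i (B a)) ∧
      F i = U * aeval B Q

/-- Let `k` be a field of characteristic zero and `D ≥ 2`. Let `F` be the `s ≥ 1` gates of a circuit
over `k((ε))` of depth `D` with parameters `e` and `r`. If a polynomial of degree at most `e` plus
polynomials of single rows and columns plus a linear combination of the gates (the top gate) is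
`perm_N + ε R` with a polynomial `R` over `k[[ε]]`, then
`s * N ^ (r + 1) ≥ exp (N ^ (1 / (fib (D + 1) - 1)) / 11000 - e)`. -/
theorem result (k : Type) [Field k] [CharZero k] (N D s e r : ℕ) (hN : 2 ≤ N) (hD : 2 ≤ D)
    (hs : 1 ≤ s) (F : Fin s → MvPolynomial (Fin N × Fin N) (LaurentSeries k))
    (hF : IsCircuit D e r F) (l U : MvPolynomial (Fin N × Fin N) (LaurentSeries k))
    (hl : l.totalDegree ≤ e) (hU : IsRowColSum U) (c : Fin s → LaurentSeries k)
    (R : MvPolynomial (Fin N × Fin N) k⟦X⟧)
    (hc : l + U + ∑ i, C (c i) * F i = MvPolynomial.map (algebraMap k⟦X⟧ (LaurentSeries k))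
      ((Matrix.of fun i j => MvPolynomial.X (i, j)).permanent +
        MvPolynomial.C PowerSeries.X * R)) :
    Real.exp ((N : ℝ) ^ ((1 : ℝ) / (Nat.fib (D + 1) - 1)) / 11000 - e) ≤
      s * (N : ℝ) ^ (r + 1) := by
  obtain ⟨d, hd, hck⟩ := hF
  obtain ⟨h, rfl⟩ : ∃ h, D = h + 2 := ⟨D - 2, by omega⟩
  have hmain := Work.MP_499dc6_lc.Fib.Rc_fin k N s h r e F d c R hN (by
    intro i
    obtain ⟨U, B, Q, hU, hB, hFi⟩ := hck i
    refine ⟨U, B, Q, hU, hFi, ?_⟩
    rcases Nat.eq_zero_or_pos (d i) with h0 | h0
    · left
      intro a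
      rcases hB a with ⟨l, U', c', hl, hl0, hU', hc', hBa⟩ | ⟨U', k', hU', hk', hBa⟩
      · left
        have h1 : ∀ j, c' j = 0 := fun j => by
          by_contra h2
          have := (hc' j h2).2
          omega
        have h2 : B a = U' := by
          rw [hBa, hl0 h0, zero_add]
          simp [h1]
        rw [h2]
        exact hU'
      · right
        have h1 : ∀ j, k' j = 0 := fun j => by
          by_contra h2
          have := (hk' j h2).2
          omega
        have h2 : B a = U' := by
          rw [hBa]
          simp [h1]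
        rw [h2]
        exact hU'
    · refine Or.inr ⟨h0, fun a => ?_⟩
      rcases hB a with ⟨l, U', c', hl, -, hU', hc', hBa⟩ | ⟨U', k', hU', hk', hBa⟩
      · exact Or.inl ⟨l, U', c', hl, hU',
          fun j hj => by simpa [Work.MP_499dc6_lc.Fib.Low] using hc' j hj, hBa⟩
      · exact Or.inr ⟨U', k', hU',
          fun j hj => by simpa [Work.MP_499dc6_lc.Fib.Low] using hk' j hj, hBa⟩)
    (fun i => by have := hd i; omega) l U hl hU hc
  have hNR : (2 : ℝ) ≤ N := by exact_mod_cast hN
  have hN0 : (0 : ℝ) < N := by linarith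
  have hs1 : (1 : ℝ) ≤ s := by exact_mod_cast hs
  have hs0 : (0 : ℝ) < s := by linarith
  have hfib : 2 ≤ Nat.fib (h + 2 + 1) := by
    have h4 : Nat.fib 3 = 2 := by decide
    rw [← h4]
    exact Nat.fib_mono (by omega)
  obtain ⟨E, hE⟩ : ∃ E, Nat.fib (h + 2 + 1) = E + 1 := ⟨Nat.fib (h + 2 + 1) - 1, by omega⟩
  have hE2 : 1 ≤ E := by omega
  have hE0 : ((E : ℕ) : ℝ) ≠ 0 := by
    have : 0 < E := by omega
    positivity
  have hmain' : (N : ℝ) ≤ (11000 * (Real.log s + (r + 1) * Real.log N + e)) ^ E := by
    have : Nat.fib (h + 3) - 1 = E := by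
      have : Nat.fib (h + 3) = E + 1 := hE
      omega
    rw [this] at hmain
    exact hmain
  have hls : 0 ≤ Real.log s := Real.log_nonneg hs1
  have hlN : 0 ≤ Real.log N := Real.log_nonneg (by linarith)
  have hX : 0 ≤ 11000 * (Real.log s + (r + 1) * Real.log N + e) := by positivity
  have hroot : (N : ℝ) ^ ((1 : ℝ) / (Nat.fib (h + 2 + 1) - 1)) ≤
      11000 * (Real.log s + (r + 1) * Real.log N + e) := by
    have h3 : ((11000 * (Real.log s + (r + 1) * Real.log N + e)) ^ E) ^
        ((1 : ℝ) / (Nat.fib (h + 2 + 1) - 1)) =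
          11000 * (Real.log s + (r + 1) * Real.log N + e) := by
      rw [← Real.rpow_natCast, ← Real.rpow_mul hX]
      have : ((E : ℕ) : ℝ) * (1 / (Nat.fib (h + 2 + 1) - 1)) = 1 := by
        rw [hE]
        push_cast
        rw [add_sub_cancel_right]
        exact mul_one_div_cancel hE0
      rw [this, Real.rpow_one]
    rw [← h3]
    refine Real.rpow_le_rpow (by positivity) hmain' ?_
    rw [hE]
    push_cast
    rw [add_sub_cancel_right]
    positivity
  have h4 : (N : ℝ) ^ ((1 : ℝ) / (Nat.fib (h + 2 + 1) - 1)) / 11000 - e ≤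
      Real.log s + (r + 1) * Real.log N := by
    have : (N : ℝ) ^ ((1 : ℝ) / (Nat.fib (h + 2 + 1) - 1)) / 11000 ≤
        Real.log s + (r + 1) * Real.log N + e := by
      rw [div_le_iff₀ (by norm_num)]
      linarith
    linarith
  calc Real.exp ((N : ℝ) ^ ((1 : ℝ) / (Nat.fib (h + 2 + 1) - 1)) / 11000 - e)
      ≤ Real.exp (Real.log s + (r + 1) * Real.log N) := Real.exp_le_exp.mpr h4
    _ = s * (N : ℝ) ^ (r + 1) := by
        rw [Real.exp_add, Real.exp_log hs0]
        congr 1
        have : ((r : ℝ) + 1) * Real.log N = ((r + 1 : ℕ) : ℝ) * Real.log N := by push_cast; ring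
        rw [this, Real.exp_nat_mul, Real.exp_log hN0]

end Pool.Agent.Results.MP_499dc6_lc.FibonacciDepth
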