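import Mathlib
import Pool.Agent.Work.MP_499dc6_lc.HD.Main

/-!
# Homogeneous circuits of constant depth over every field

Over every field, homogeneous circuits of product depth `Δ` with unbounded fan-in for iterated
matrix multiplication `IMM_(N,d)`, or for any polynomial that specializes to it by linear forms, for
instance the sum of all simple paths with `d` edges in the complete digraph with `M ≥ (d + 1) N`
vertices, have at least `N ^ (d ^ (1 / (fib (Δ + 2) - 1)) / 1200 - 1) - 1` gates, `d ≤ N ^ (1/14)`,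
exactly and in the border sense. The exponents are `1, 1/2, 1/4, 1/7, ...` for `Δ = 1, 2, 3, 4, ...`.
-/

set_option autoImplicit false

namespace Pool.Agent.Results.MP_499dc6_lc.HomogeneousDepth

open MvPolynomial

open scoped PowerSeries

/-- Iterated matrix multiplication: the entry `(z, z)` of the product of `d` matrices of variables
of order `N`. -/
noncomputable def imm (R : Type) [CommSemiring R] (N d : ℕ) (z : Fin N) :
    MvPolynomial (Fin d × Fin N × Fin N) R :=
  (List.ofFn fun i : Fin d => Matrix.of fun u v : Fin N =>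
    (X (i, u, v) : MvPolynomial (Fin d × Fin N × Fin N) R)).prod z z

/-- The sum over all simple directed paths with `d` edges in the complete digraph on `Fin M` of the
products of the variables of their edges. -/
noncomputable def pathPoly (R : Type) [CommSemiring R] (M d : ℕ) :
    MvPolynomial (Fin M × Fin M) R :=
  ∑ v : Fin (d + 1) ↪ Fin M, ∏ i : Fin d, X (v i.castSucc, v i.succ)

/-- `f` specializes to `g`: the substitution of homogeneous linear forms (for instance of variables
and zeros) for the variables of `f` gives `g`. -/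
def Specializes {σ τ R : Type} [CommSemiring R] (f : MvPolynomial σ R) (g : MvPolynomial τ R) :
    Prop :=
  ∃ θ : σ → MvPolynomial τ R, (∀ x, (θ x).IsHomogeneous 1) ∧ aeval θ f = g

/-- `F 0, ..., F (s - 1)` are the polynomials computed by the `s` gates (in this order) of a
homogeneous circuit of product depth `Δ`: every `F i` is homogeneous, `lev i ≤ Δ` is the level of the
gate `i`, and the gate is either an affine form plus a linear combination of any number of earlier
gates of level at most `lev i`, or a product of powers of any number of earlier gates of level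
smaller than `lev i`. -/
def IsHomogeneousCircuit {K σ : Type} [Field K] {s : ℕ} (Δ : ℕ)
    (F : Fin s → MvPolynomial σ K) : Prop :=
  (∀ i, ∃ e, (F i).IsHomogeneous e) ∧ ∃ lev : Fin s → ℕ, (∀ i, lev i ≤ Δ) ∧ ∀ i,
    (∃ (l : MvPolynomial σ K) (c : Fin s → K), l.totalDegree ≤ 1 ∧
      (∀ j, c j ≠ 0 → j < i ∧ lev j ≤ lev i) ∧ F i = l + ∑ j, C (c j) * F j) ∨
    ∃ k : Fin s → ℕ, (∀ j, k j ≠ 0 → j < i ∧ lev j < lev i) ∧ F i = ∏ j, F j ^ k j

/-- First part: `k` any field, `d ^ 14 ≤ N`, `f` a polynomial over `k[[ε]]` that specializes to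
`imm N d z`; if `f + ε R` is computed by a homogeneous circuit over `k((ε))` with `s` gates and product
depth `Δ ≥ 1`, then `N ^ (d ^ (1 / (fib (Δ + 2) - 1)) / 1200 - 1) ≤ s + 1`. Second part: the sum of all
simple paths with `d ≥ 1` edges in `Fin M`, `M ≥ (d + 1) N`, specializes to `imm N d z`. -/
theorem result :
    (∀ (k σ : Type) [Field k] (N d Δ s : ℕ) (z : Fin N) (f R : MvPolynomial σ k⟦X⟧)
      (F : Fin s → MvPolynomial σ (LaurentSeries k)) (i : Fin s),
      d ^ 14 ≤ N → 1 ≤ Δ → Specializes f (imm k⟦X⟧ N d z) → IsHomogeneousCircuit Δ F →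
      F i = MvPolynomial.map (algebraMap k⟦X⟧ (LaurentSeries k))
        (f + MvPolynomial.C PowerSeries.X * R) →
      (N : ℝ) ^ ((d : ℝ) ^ ((1 : ℝ) / (Nat.fib (Δ + 2) - 1)) / 1200 - 1) ≤ s + 1) ∧
    ∀ (R : Type) [CommSemiring R] (M N d : ℕ) (z : Fin N), 1 ≤ d → (d + 1) * N ≤ M →
      Specializes (pathPoly R M d) (imm R N d z) := by
  refine ⟨?_, ?_⟩
  · intro k σ _ N d Δ s z f R F i hdN hΔ hf hF hi
    obtain ⟨hF1, lev, hlev, hF2⟩ := hF
    have hf' : Work.MP_499dc6_lc.HD.IsLin f (Work.MP_499dc6_lc.HD.imm k⟦X⟧ N d z) := by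
      obtain ⟨θ, h1, h2⟩ := hf
      refine ⟨θ, h1, ?_⟩
      rw [h2, ← Work.MP_499dc6_lc.HD.Imm_eq]
      rfl
    have hmain := Work.MP_499dc6_lc.HD.main k σ N d Δ s z f R F lev i hdN hΔ hf' ⟨hF2, hF1⟩ hlev hi
    have hN1 : 1 ≤ N := by
      have := z.2
      omega
    have hs0 : (0 : ℝ) ≤ s := Nat.cast_nonneg s
    have hfib : 2 ≤ Nat.fib (Δ + 2) := by
      have h4 : Nat.fib 3 = 2 := by decide
      rw [← h4]
      exact Nat.fib_mono (by omega)
    obtain ⟨E, hE⟩ : ∃ E, Nat.fib (Δ + 2) = E + 1 := ⟨Nat.fib (Δ + 2) - 1, by omega⟩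
    have hE1 : 1 ≤ E := by omega
    have hE0 : (E : ℝ) ≠ 0 := by
      have : (1 : ℝ) ≤ E := by exact_mod_cast hE1
      linarith
    rcases Nat.eq_or_lt_of_le hN1 with hN | hN
    · rw [← hN]
      simp only [Nat.cast_one, Real.one_rpow]
      linarith
    · have hN2 : (1 : ℝ) < N := by exact_mod_cast hN
      have hlogN : 0 < Real.log N := Real.log_pos hN2
      have hlogs : 0 ≤ Real.log ((s : ℝ) + 1) := Real.log_nonneg (by linarith)
      rw [hE, Nat.add_sub_cancel] at hmain
      have hB0 : 0 ≤ 1200 * (1 + Real.log ((s : ℝ) + 1) / Real.log N) := by positivity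
      have h1 : (d : ℝ) ^ ((1 : ℝ) / (Nat.fib (Δ + 2) - 1)) ≤
          1200 * (1 + Real.log ((s : ℝ) + 1) / Real.log N) := by
        have h2 : ((Nat.fib (Δ + 2) : ℝ) - 1) = E := by
          rw [hE]
          push_cast
          ring
        rw [h2]
        calc (d : ℝ) ^ ((1 : ℝ) / E)
            ≤ ((1200 * (1 + Real.log ((s : ℝ) + 1) / Real.log N)) ^ E) ^ ((1 : ℝ) / E) :=
              Real.rpow_le_rpow (Nat.cast_nonneg d) hmain (by positivity)
          _ = 1200 * (1 + Real.log ((s : ℝ) + 1) / Real.log N) := by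
              rw [← Real.rpow_natCast, ← Real.rpow_mul hB0, mul_one_div_cancel hE0, Real.rpow_one]
      have h3 : ((d : ℝ) ^ ((1 : ℝ) / (Nat.fib (Δ + 2) - 1)) / 1200 - 1) * Real.log N ≤
          Real.log ((s : ℝ) + 1) := by
        have h4 : (d : ℝ) ^ ((1 : ℝ) / (Nat.fib (Δ + 2) - 1)) / 1200 - 1 ≤
            Real.log ((s : ℝ) + 1) / Real.log N := by linarith
        calc ((d : ℝ) ^ ((1 : ℝ) / (Nat.fib (Δ + 2) - 1)) / 1200 - 1) * Real.log N
            ≤ Real.log ((s : ℝ) + 1) / Real.log N * Real.log N :=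
              mul_le_mul_of_nonneg_right h4 hlogN.le
          _ = Real.log ((s : ℝ) + 1) := div_mul_cancel₀ _ hlogN.ne'
      rw [Real.rpow_def_of_pos (by linarith), mul_comm]
      calc Real.exp (((d : ℝ) ^ ((1 : ℝ) / (Nat.fib (Δ + 2) - 1)) / 1200 - 1) * Real.log N)
          ≤ Real.exp (Real.log ((s : ℝ) + 1)) := Real.exp_le_exp.2 h3
        _ = (s : ℝ) + 1 := Real.exp_log (by linarith)
  · intro R _ M N d z hd hM
    obtain ⟨θ, h1, h2⟩ := Work.MP_499dc6_lc.HD.projS R M N d z hd hM
    refine ⟨θ, h1, ?_⟩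
    unfold imm
    rw [Work.MP_499dc6_lc.HD.Imm_eq, ← h2]
    rfl

end Pool.Agent.Results.MP_499dc6_lc.HomogeneousDepth
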